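import Pool.Agent.Helper30_SkewP4.Stmts

/-! SKEW modules TNE, TKZ, TNU. -/

set_option autoImplicit false

open scoped TensorProduct

namespace Pool.Agent.SkewP4.H53

/-- TNE: no negative degree in `y`. -/
theorem tne (hJ : JopStmt) : TneStmt := by
  obtain ⟨Jx, Jy, _, hJy, _⟩ := hJ
  intro m t hm ht
  obtain ⟨c, hc⟩ : ∃ c : ℕ, (c : ℤ) = -m := ⟨(-m).toNat, Int.toNat_of_nonneg (by omega)⟩
  have hc1 : 1 ≤ c := by omega
  have h1 : Jy c ∘ₗ (Ny + (c : ℂ) • LinearMap.id) = LinearMap.id := by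
    refine LinearMap.ext fun f => ?_
    exact hJy c f hc1
  have h2 : LinearMap.rTensor E (Jy c) (opNy t + (c : ℂ) • t) = t := by
    have h3 : opNy t + (c : ℂ) • t = LinearMap.rTensor E (Ny + (c : ℂ) • LinearMap.id) t := by
      rw [LinearMap.rTensor_add, LinearMap.rTensor_smul, LinearMap.rTensor_id]
      rfl
    rw [h3, ← LinearMap.comp_apply, ← LinearMap.rTensor_comp, h1, LinearMap.rTensor_id]
    rfl
  have h4 : opNy t + (c : ℂ) • t = 0 := by
    rw [ht, ← add_smul]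
    have h5 : (m : ℂ) + (c : ℂ) = 0 := by
      have h6 : (m : ℂ) + ((c : ℤ) : ℂ) = 0 := by rw [hc]; push_cast; ring
      simpa using h6
    rw [h5, zero_smul]
  rw [← h2, h4, map_zero]

/-- TNU: `opI` does not reach units. -/
theorem tnu : TnuStmt := by
  intro f b h
  let cc : R →ₗ[ℂ] ℂ := (MvPolynomial.aeval (fun _ : Ix => (0 : ℂ))).toLinearMap
  have h1 : ∀ j, cc ∘ₗ mx j = 0 := by
    intro j
    refine LinearMap.ext fun f => ?_
    change MvPolynomial.aeval (fun _ : Ix => (0 : ℂ)) (MvPolynomial.X (Sum.inl j) * f) = 0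
    rw [map_mul, MvPolynomial.aeval_X, zero_mul]
  have h2 : LinearMap.rTensor E cc (opI b) = 0 := by
    unfold opI opPhi
    rw [LinearMap.sum_apply, map_sum]
    refine Finset.sum_eq_zero fun j _ => ?_
    rw [LinearMap.rTensor, ← LinearMap.comp_apply, ← TensorProduct.map_comp, h1 j,
      TensorProduct.map_zero_left, LinearMap.zero_apply]
  rw [h, LinearMap.rTensor_tmul] at h2
  have h5 := congrArg (TensorProduct.lid ℂ E) h2
  rw [TensorProduct.lid_tmul, map_zero, ← Algebra.algebraMap_eq_smul_one] at h5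
  have h6 : cc (MvPolynomial.rename Sum.inl f) = 0 := by
    have h7 := congrArg (ExteriorAlgebra.algebraMapInv (R := ℂ) (M := Ix → ℂ)) h5
    rw [map_zero, ExteriorAlgebra.algebraMap_leftInverse] at h7
    exact h7
  have h8 : cc (MvPolynomial.rename Sum.inl f) = MvPolynomial.constantCoeff f := by
    change MvPolynomial.aeval (fun _ : Ix => (0 : ℂ)) (MvPolynomial.rename Sum.inl f) = _
    rw [MvPolynomial.aeval_rename]
    have h9 : ((fun _ : Ix => (0 : ℂ)) ∘ Sum.inl : Fin 5 → ℂ) = 0 := rfl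
    rw [h9, MvPolynomial.aeval_zero]
    rfl
  rw [← h8, h6]

/-- TKZ: Koszul exactness for the Euler field in `x`. -/
theorem tkz (hJ : JopStmt) (hR : OprStmt) (hB : OpbStmt) : TkzStmt := by
  obtain ⟨Jx, Jy, hJx, _, hx, hy, hp⟩ := hJ
  intro z hz hI
  obtain ⟨⟨hz1, hz2⟩, hz3⟩ := hz
  have hz4 : opNy z = 0 := by
    have h := LinearMap.mem_ker.1 hz3
    simpa using h
  have hIJ : ∀ t : T, opI (LinearMap.rTensor E (Jx 3) t) = LinearMap.rTensor E (Jx 2) (opI t) := by
    intro t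
    unfold opI opPhi
    rw [LinearMap.sum_apply, LinearMap.sum_apply, map_sum]
    refine Finset.sum_congr rfl fun j _ => ?_
    have h1 : mx j ∘ₗ Jx 3 = Jx 2 ∘ₗ mx j :=
      LinearMap.ext fun f => (hx 2 f j (by norm_num)).symm
    rw [LinearMap.rTensor, LinearMap.rTensor, ← LinearMap.comp_apply, ← LinearMap.comp_apply,
      ← TensorProduct.map_comp, ← TensorProduct.map_comp, h1]
    rfl
  have hNJ : ∀ t : T, opNy (LinearMap.rTensor E (Jx 3) t) = LinearMap.rTensor E (Jx 3) (opNy t) := by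
    have h0 : Ny ∘ₗ Jx 3 = Jx 3 ∘ₗ Ny := by
      refine LinearMap.ext fun f => ?_
      simp only [Ny, LinearMap.comp_apply, LinearMap.sum_apply, map_sum]
      refine Finset.sum_congr rfl fun j _ => ?_
      change MvPolynomial.X (Sum.inr j) * MvPolynomial.pderiv (Sum.inr j) (Jx 3 f)
        = Jx 3 (MvPolynomial.X (Sum.inr j) * MvPolynomial.pderiv (Sum.inr j) f)
      rw [hy 3 _ j (by norm_num), hp 3 f j (by norm_num)]
    intro t
    rw [opNy, ← LinearMap.comp_apply, ← LinearMap.rTensor_comp, h0, LinearMap.rTensor_comp]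
    rfl
  have hD := hB.IDx 2 0 z hz1
  rw [hI, map_zero, add_zero] at hD
  have h2 : opI (LinearMap.rTensor E (Jx 3) (opDx z)) = z := by
    rw [hIJ, hD]
    have h1 : Jx 2 ∘ₗ (Nx + ((2 : ℕ) : ℂ) • LinearMap.id) = LinearMap.id := by
      refine LinearMap.ext fun f => ?_
      exact hJx 2 f (by norm_num)
    have h3 : opNx z + ((2 : ℕ) : ℂ) • z
        = LinearMap.rTensor E (Nx + ((2 : ℕ) : ℂ) • LinearMap.id) z := by
      rw [LinearMap.rTensor_add, LinearMap.rTensor_smul, LinearMap.rTensor_id]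
      rfl
    rw [h3, ← LinearMap.comp_apply, ← LinearMap.rTensor_comp, h1, LinearMap.rTensor_id]
    rfl
  have hm := hB.r_mem 3 0 _ (Jx 3) (hB.Dx_mem 2 0 z hz1)
  refine ⟨LinearMap.rTensor E (Jx 3) (opDx z), ⟨⟨hm, ?_⟩, ?_⟩, h2⟩
  · exact LinearMap.mem_ker.2 (hB.K_zero 3 _ hm)
  · refine LinearMap.mem_ker.2 ?_
    rw [LinearMap.sub_apply, hNJ, hR.Ny_Dx, hz4]
    simp

end Pool.Agent.SkewP4.H53
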